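import Pool.Agent.helper95.FJ.SpecE
import Pool.Agent.helper46.FI.COP

/-!
Row `fj:NPW` (MP_ad8ced_nt): products which are not primitive.
-/

set_option autoImplicit false

open Finset

noncomputable section

namespace Pool.Agent.FJ

open Pool.Agent.FI

private theorem NPW_inv (Z n : ℕ) (hn : 1 ≤ n) : ∑ g ∈ Ioc Z n, 1 / (g : ℝ) ≤ 1 + Real.log n := by
  have h1 := harmonic_le_one_add_log n
  rw [harmonic_eq_sum_Icc] at h1
  push_cast at h1
  refine le_trans ?_ h1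
  refine le_trans (le_of_eq (Finset.sum_congr rfl fun g _ => one_div _)) ?_
  refine Finset.sum_le_sum_of_subset_of_nonneg ?_ fun g _ _ => by positivity
  intro g hg
  rw [Finset.mem_Ioc] at hg
  rw [Finset.mem_Icc]
  omega

private theorem NPW_sq (Z n : ℕ) (hZ : 1 ≤ Z) : ∑ g ∈ Ioc Z n, 1 / (g : ℝ) ^ 2 ≤ 1 / (Z : ℝ) := by
  rcases le_total Z n with h | h
  · have h2 := sum_Ioc_inv_sq_le_sub (α := ℝ) (k := Z) (n := n) (by omega) h
    have h3 : (0 : ℝ) ≤ ((n : ℕ) : ℝ)⁻¹ := by positivity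
    rw [one_div]
    refine le_trans (le_of_eq (Finset.sum_congr rfl fun g _ => one_div _)) ?_
    linarith
  · rw [Finset.Ioc_eq_empty (by omega), Finset.sum_empty]
    positivity

private theorem NPW_pr {a l : ℤ} (h : ¬ IsCoprime a l) :
    ∃ g : ℕ, g.Prime ∧ (g : ℤ) ∣ a ∧ (g : ℤ) ∣ l := by
  rw [Int.isCoprime_iff_gcd_eq_one] at h
  refine ⟨(Int.gcd a l).minFac, Nat.minFac_prime h, ?_, ?_⟩
  · exact (Int.natCast_dvd_natCast.2 (Nat.minFac_dvd _)).trans (Int.gcd_dvd_left _ _)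
  · exact (Int.natCast_dvd_natCast.2 (Nat.minFac_dvd _)).trans (Int.gcd_dvd_right _ _)

private theorem NPW_nn {z w : ℤ × ℤ} {g : ℕ} (hg : g.Prime) (h1 : (g : ℤ) ∣ ac z w) (h2 : (g : ℤ) ∣ lc z w)
    (h3 : ¬ ((g : ℤ) ∣ w.1 ∧ (g : ℤ) ∣ w.2)) : g ∣ nn z := by
  have hgp : Prime (g : ℤ) := Nat.prime_iff_prime_int.1 hg
  have e1 : N8 z * w.1 = z.1 * ac z w - 8 * z.2 * lc z w := by
    unfold N8 ac lc; ring
  have e2 : N8 z * w.2 = z.1 * lc z w - z.2 * ac z w := by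
    unfold N8 ac lc; ring
  have d1 : (g : ℤ) ∣ N8 z * w.1 := by
    rw [e1]
    exact dvd_sub (Dvd.dvd.mul_left h1 _) (Dvd.dvd.mul_left h2 _)
  have d2 : (g : ℤ) ∣ N8 z * w.2 := by
    rw [e2]
    exact dvd_sub (Dvd.dvd.mul_left h2 _) (Dvd.dvd.mul_left h1 _)
  have d3 : (g : ℤ) ∣ N8 z := by
    rcases hgp.dvd_or_dvd d1 with h | h
    · exact h
    · rcases hgp.dvd_or_dvd d2 with h' | h'
      · exact h'
      · exact absurd ⟨h, h'⟩ h3
  unfold nn
  exact Int.natCast_dvd.1 d3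

open scoped Classical in
private theorem NPW_fib (x N R A Z G : ℕ) (z : ℤ × ℤ) (hz0 : nn z ≠ 0) :
    (#{w ∈ Bx R | w.1 % 2 = 1 ∧ (x : ℤ) < lc z w ∧ lc z w ≤ 2 * x ∧ 0 < ac z w ∧ ac z w ≤ A ∧
      ¬ IsCoprime (ac z w) (lc z w) ∧ ∀ g : ℕ, g.Prime → g ≤ Z → ¬ (g : ℤ) ∣ lc z w} : ℝ)
    ≤ ∑ g ∈ Ioc Z R, (#{w ∈ Bx R | w ≠ 0 ∧ (g : ℤ) ∣ w.1 ∧ (g : ℤ) ∣ w.2 ∧ |(ac z w : ℝ)| ≤ (A : ℝ)} : ℝ)
      + ∑ g ∈ (Ioc Z G).filter (fun g => g.Prime ∧ g ∣ nn z), (#{w ∈ Bx R | |(ac z w : ℝ)| ≤ (A : ℝ) ∧ (g : ℤ) ∣ lc z w} : ℝ)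
      + ∑ g ∈ (nn z).primeFactors.filter (fun g => G < g), (#{w ∈ Bx R | |(ac z w : ℝ)| ≤ (A : ℝ) ∧ (g : ℤ) ∣ lc z w} : ℝ) := by
  have hsub : ({w ∈ Bx R | w.1 % 2 = 1 ∧ (x : ℤ) < lc z w ∧ lc z w ≤ 2 * x ∧ 0 < ac z w ∧ ac z w ≤ A ∧
      ¬ IsCoprime (ac z w) (lc z w) ∧ ∀ g : ℕ, g.Prime → g ≤ Z → ¬ (g : ℤ) ∣ lc z w} : Finset (ℤ × ℤ)) ⊆
      ((Ioc Z R).biUnion fun g => {w ∈ Bx R | w ≠ 0 ∧ (g : ℤ) ∣ w.1 ∧ (g : ℤ) ∣ w.2 ∧ |(ac z w : ℝ)| ≤ (A : ℝ)}) ∪
      (((Ioc Z G).filter (fun g => g.Prime ∧ g ∣ nn z)).biUnion fun g => {w ∈ Bx R | |(ac z w : ℝ)| ≤ (A : ℝ) ∧ (g : ℤ) ∣ lc z w}) ∪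
      (((nn z).primeFactors.filter (fun g => G < g)).biUnion fun g => {w ∈ Bx R | |(ac z w : ℝ)| ≤ (A : ℝ) ∧ (g : ℤ) ∣ lc z w}) := by
    intro w hw
    obtain ⟨hB, hodd, h1, h2, h3, h4, h5, h6⟩ := Finset.mem_filter.1 hw
    obtain ⟨g, hg, h7, h8⟩ := NPW_pr h5
    have hZg : Z < g := by
      by_contra h
      exact h6 g hg (by omega) h8
    have habs : |(ac z w : ℝ)| ≤ (A : ℝ) := by
      have e1 : (0 : ℝ) < (ac z w : ℝ) := by exact_mod_cast h3
      rw [abs_of_pos e1]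
      exact_mod_cast h4
    rw [Finset.mem_union, Finset.mem_union, Finset.mem_biUnion, Finset.mem_biUnion, Finset.mem_biUnion]
    by_cases h9 : (g : ℤ) ∣ w.1 ∧ (g : ℤ) ∣ w.2
    · left; left
      have hw1 : w.1 ≠ 0 := by
        intro h
        rw [h] at hodd
        simp at hodd
      refine ⟨g, Finset.mem_Ioc.2 ⟨hZg, ?_⟩, Finset.mem_filter.2 ⟨hB, ?_, h9.1, h9.2, habs⟩⟩
      · have hB' := Finset.mem_Icc.1 (Finset.mem_product.1 hB).1
        have h4 : (g : ℤ) ≤ |w.1| := Int.le_of_dvd (abs_pos.2 hw1) ((dvd_abs _ _).2 h9.1)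
        have h5 : |w.1| ≤ (R : ℤ) := abs_le.2 ⟨hB'.1, hB'.2⟩
        exact_mod_cast h4.trans h5
      · intro h
        exact hw1 (by rw [h]; rfl)
    · have h10 := NPW_nn hg h7 h8 h9
      rcases le_or_gt g G with h11 | h11
      · left; right
        exact ⟨g, Finset.mem_filter.2 ⟨Finset.mem_Ioc.2 ⟨hZg, h11⟩, hg, h10⟩, Finset.mem_filter.2 ⟨hB, habs, h8⟩⟩
      · right
        exact ⟨g, Finset.mem_filter.2 ⟨Nat.mem_primeFactors.2 ⟨hg, h10, hz0⟩, h11⟩, Finset.mem_filter.2 ⟨hB, habs, h8⟩⟩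
  have h1 := Finset.card_le_card hsub
  have h2 := h1.trans ((Finset.card_union_le _ _).trans (Nat.add_le_add ((Finset.card_union_le _ _).trans
    (Nat.add_le_add Finset.card_biUnion_le Finset.card_biUnion_le)) Finset.card_biUnion_le))
  exact_mod_cast h2

theorem NPW (hBDG : BDG_stmt) (hZGD : ZGD_stmt) (hCWG : CWG_stmt) (hFFC : FFC_stmt) : NPW_stmt := by
  classical
  obtain ⟨C₁, hC₁, hB⟩ := hBDG
  obtain ⟨C₀, hC₀, hZ0⟩ := hZGD
  obtain ⟨C₂, hC₂, hW⟩ := hCWG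
  refine ⟨12500 * C₁ + 51 * (C₀ * C₂) + 10200 * C₂, by positivity, ?_⟩
  rintro x N R A Z G ⟨hx, hN, hR, hA, hAx, hR1, hR2, hAN1, hAN2⟩ hZ hG hGx
  obtain ⟨hZD, -⟩ := COP_zd hFFC N
  have hx' : (1 : ℝ) ≤ x := by exact_mod_cast hx
  have hN' : (1 : ℝ) ≤ N := by exact_mod_cast hN
  have hR' : (1 : ℝ) ≤ R := by exact_mod_cast hR
  have hA' : (1 : ℝ) ≤ A := by exact_mod_cast hA
  have hZ' : (1 : ℝ) ≤ Z := by exact_mod_cast hZ
  have hG' : (1 : ℝ) ≤ G := by exact_mod_cast hG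
  have hAx' : (A : ℝ) ≤ x := by exact_mod_cast hAx
  have hGx' : (G : ℝ) ≤ x := by exact_mod_cast hGx
  set s : ℝ := √(N : ℝ) with hs
  have hs1 : 1 ≤ s := by
    rw [hs, Real.one_le_sqrt]; exact hN'
  have hs0 : 0 < s := by linarith
  have hss : s * s = N := Real.mul_self_sqrt (by linarith)
  have hRs : (R : ℝ) * s ≤ 50 * x := by
    have h1 : ((R : ℝ)) ^ 2 * N ≤ 2500 * (x : ℝ) ^ 2 := by exact_mod_cast hR2
    apply le_of_sq_le_sq _ (by positivity)
    have : ((R : ℝ) * s) ^ 2 = (R : ℝ) ^ 2 * N := by rw [← hss]; ring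
    rw [this]
    linarith
  have hlx : 0 ≤ Real.log x := Real.log_nonneg hx'
  have hlogR : 1 + Real.log R ≤ 5 * (1 + Real.log x) := by
    have h1 : (R : ℝ) ≤ 50 * x := by nlinarith
    have h2 : Real.log R ≤ Real.log (50 * x) := Real.log_le_log (by linarith) h1
    rw [Real.log_mul (by norm_num) (by linarith)] at h2
    have h3 : Real.log 50 ≤ 4 := by
      rw [Real.log_le_iff_le_exp (by norm_num)]
      have h4 := Real.exp_one_gt_d9
      have h5 : Real.exp 4 = Real.exp 1 ^ 4 := by rw [← Real.exp_nat_mul]; norm_num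
      rw [h5]
      have h6 : (2.7 : ℝ) ≤ Real.exp 1 := by linarith
      calc (50 : ℝ) ≤ 2.7 ^ 4 := by norm_num
        _ ≤ Real.exp 1 ^ 4 := pow_le_pow_left₀ (by norm_num) h6 4
    linarith
  have hlogG : 1 + Real.log G ≤ 1 + Real.log x := by
    have := Real.log_le_log (by linarith) hGx'
    linarith
  have hlogN : Real.log N ≤ 2 * Real.log x := by
    have h1 : (N : ℝ) ≤ (x : ℝ) ^ 2 := by
      have h2 : (N : ℝ) ≤ (A : ℝ) ^ 2 := by exact_mod_cast hAN2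
      nlinarith
    have h2 := Real.log_le_log (by linarith) h1
    rw [Real.log_pow] at h2
    push_cast at h2
    exact h2
  set ℓ : ℝ := 1 + Real.log x with hℓ
  have hℓ1 : 1 ≤ ℓ := by linarith
  have hzn : ∀ z ∈ ZD N, 0 < nn z ∧ nn z ≤ 2 * N := by
    intro z hz
    have h1 := (Finset.mem_filter.1 hz).2.1
    have h2 := (Finset.mem_filter.1 (Finset.mem_filter.1 hz).1).2.2
    exact ⟨by omega, h2⟩
  -- the bound for one `z` and one prime
  have hBg : ∀ z ∈ ZD N, ∀ g : ℕ, g.Prime → ∀ g' : ℝ, 1 ≤ g' → g' ≤ g →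
      (#{w ∈ Bx R | |(ac z w : ℝ)| ≤ (A : ℝ) ∧ (g : ℤ) ∣ lc z w} : ℝ) ≤ 51 * C₂ * (x * A / (g' * N) + x / s) := by
    intro z hz g hg g' hg1 hgg
    refine (hW N R g hN hR hg z hz A (by positivity)).trans ?_
    have hg0 : (0 : ℝ) < g := by linarith
    have e1 : (R : ℝ) * A / (g * s) ≤ 50 * (x * A / (g' * N)) := by
      have e2 : (R : ℝ) * A / (g * s) = (R * s) * A / (g * N) := by
        rw [← hss]; field_simp
      rw [e2]
      have e3 : (R : ℝ) * s * A / (g * N) ≤ 50 * x * A / (g' * N) := by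
        apply div_le_div₀ (by positivity) _ (by positivity) _
        · exact mul_le_mul_of_nonneg_right hRs (by linarith)
        · exact mul_le_mul_of_nonneg_right hgg (by linarith)
      refine e3.trans (le_of_eq ?_)
      ring
    have e4 : (R : ℝ) ≤ 50 * (x / s) := by
      rw [← mul_div_assoc, le_div_iff₀ hs0]; exact hRs
    have e5 : (A : ℝ) / s ≤ x / s := div_le_div_of_nonneg_right hAx' hs0.le
    have e6 : (0 : ℝ) ≤ x * A / (g' * N) := by positivity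
    have e7 : (R : ℝ) * A / (g * s) + R + A / s ≤ 51 * (x * A / (g' * N) + x / s) := by linarith
    calc C₂ * ((R : ℝ) * A / (g * s) + R + A / s) ≤ C₂ * (51 * (x * A / (g' * N) + x / s)) :=
          mul_le_mul_of_nonneg_left e7 hC₂.le
      _ = _ := by ring
  -- part 1
  have P1 : ∑ z ∈ ZD N, ∑ g ∈ Ioc Z R, (#{w ∈ Bx R | w ≠ 0 ∧ (g : ℤ) ∣ w.1 ∧ (g : ℤ) ∣ w.2 ∧ |(ac z w : ℝ)| ≤ (A : ℝ)} : ℝ)
      ≤ 12500 * C₁ * (ℓ * (A * x / Z + x * s)) := by
    have h1 : ∀ z ∈ ZD N, ∑ g ∈ Ioc Z R, (#{w ∈ Bx R | w ≠ 0 ∧ (g : ℤ) ∣ w.1 ∧ (g : ℤ) ∣ w.2 ∧ |(ac z w : ℝ)| ≤ (A : ℝ)} : ℝ)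
        ≤ C₁ * (R * A / s * (1 / Z) + R * (5 * ℓ)) := by
      intro z hz
      calc ∑ g ∈ Ioc Z R, (#{w ∈ Bx R | w ≠ 0 ∧ (g : ℤ) ∣ w.1 ∧ (g : ℤ) ∣ w.2 ∧ |(ac z w : ℝ)| ≤ (A : ℝ)} : ℝ)
          ≤ ∑ g ∈ Ioc Z R, C₁ * (R / g * (A / (g * s) + 1)) := by
            refine Finset.sum_le_sum fun g hg => ?_
            rw [Finset.mem_Ioc] at hg
            exact hB N R g hN hR (by omega) z hz A (by positivity)
        _ = ∑ g ∈ Ioc Z R, (C₁ * (R * A / s) * (1 / (g : ℝ) ^ 2) + C₁ * R * (1 / (g : ℝ))) := by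
            refine Finset.sum_congr rfl fun g hg => ?_
            rw [Finset.mem_Ioc] at hg
            have hg0 : (0 : ℝ) < g := by exact_mod_cast (by omega : 0 < g)
            field_simp
        _ = C₁ * (R * A / s) * ∑ g ∈ Ioc Z R, 1 / (g : ℝ) ^ 2 + C₁ * R * ∑ g ∈ Ioc Z R, 1 / (g : ℝ) := by
            rw [Finset.sum_add_distrib, Finset.mul_sum, Finset.mul_sum]
        _ ≤ C₁ * (R * A / s) * (1 / Z) + C₁ * R * (5 * ℓ) := by
            refine add_le_add ?_ ?_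
            · exact mul_le_mul_of_nonneg_left (NPW_sq Z R hZ) (by positivity)
            · exact mul_le_mul_of_nonneg_left ((NPW_inv Z R hR).trans hlogR) (by positivity)
        _ = _ := by ring
    refine (Finset.sum_le_sum h1).trans ?_
    rw [Finset.sum_const, nsmul_eq_mul]
    have h2 : 0 ≤ C₁ * (R * A / s * (1 / Z) + R * (5 * ℓ)) := by positivity
    calc (#(ZD N) : ℝ) * (C₁ * (R * A / s * (1 / Z) + R * (5 * ℓ)))
        ≤ 50 * N * (C₁ * (R * A / s * (1 / Z) + R * (5 * ℓ))) := mul_le_mul_of_nonneg_right hZD h2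
      _ = 50 * C₁ * ((R * s) * (A / Z) + (R * s) * (5 * ℓ * s)) := by
          rw [← hss]; field_simp
      _ ≤ 50 * C₁ * ((50 * x) * (A / Z) + (50 * x) * (5 * ℓ * s)) := by
          refine mul_le_mul_of_nonneg_left ?_ (by positivity)
          refine add_le_add ?_ ?_
          · exact mul_le_mul_of_nonneg_right hRs (by positivity)
          · exact mul_le_mul_of_nonneg_right hRs (by positivity)
      _ = 2500 * C₁ * (A * x / Z) + 12500 * C₁ * (ℓ * (x * s)) := by ring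
      _ ≤ 12500 * C₁ * (ℓ * (A * x / Z + x * s)) := by
          have h3 : 0 ≤ C₁ * ((A : ℝ) * x / Z) := by positivity
          have h4 : C₁ * ((A : ℝ) * x / Z) * 1 ≤ C₁ * ((A : ℝ) * x / Z) * ℓ := mul_le_mul_of_nonneg_left hℓ1 h3
          nlinarith
  -- part 2
  have P2 : ∑ z ∈ ZD N, ∑ g ∈ (Ioc Z G).filter (fun g => g.Prime ∧ g ∣ nn z),
      (#{w ∈ Bx R | |(ac z w : ℝ)| ≤ (A : ℝ) ∧ (g : ℤ) ∣ lc z w} : ℝ)
      ≤ 51 * (C₀ * C₂) * (ℓ * (A * x / Z + x * s + A * x / s + x * G)) := by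
    calc ∑ z ∈ ZD N, ∑ g ∈ (Ioc Z G).filter (fun g => g.Prime ∧ g ∣ nn z),
          (#{w ∈ Bx R | |(ac z w : ℝ)| ≤ (A : ℝ) ∧ (g : ℤ) ∣ lc z w} : ℝ)
        ≤ ∑ z ∈ ZD N, ∑ g ∈ (Ioc Z G).filter (fun g => g.Prime ∧ g ∣ nn z), 51 * C₂ * (x * A / (g * N) + x / s) := by
          refine Finset.sum_le_sum fun z hz => Finset.sum_le_sum fun g hg => ?_
          obtain ⟨h1, h2, h3⟩ := Finset.mem_filter.1 hg
          exact hBg z hz g h2 g (by exact_mod_cast h2.one_le) le_rfl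
      _ = ∑ z ∈ ZD N, ∑ g ∈ (Ioc Z G), (if g.Prime ∧ g ∣ nn z then 51 * C₂ * (x * A / (g * N) + x / s) else 0) := by
          refine Finset.sum_congr rfl fun z _ => ?_
          rw [Finset.sum_filter]
      _ = ∑ g ∈ (Ioc Z G), ∑ z ∈ ZD N, (if g.Prime ∧ g ∣ nn z then 51 * C₂ * (x * A / (g * N) + x / s) else 0) := Finset.sum_comm
      _ ≤ ∑ g ∈ Ioc Z G, C₀ * (N / g + s) * (51 * C₂ * (x * A / (g * N) + x / s)) := by
          refine Finset.sum_le_sum fun g hg => ?_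
          rw [Finset.mem_Ioc] at hg
          have hg0 : (0 : ℝ) < g := by exact_mod_cast (by omega : 0 < g)
          by_cases hgp : g.Prime
          · have h1 : ∑ z ∈ ZD N, (if g.Prime ∧ g ∣ nn z then 51 * C₂ * (x * A / (g * N) + x / s) else 0)
                = (#{z ∈ ZD N | g ∣ nn z} : ℝ) * (51 * C₂ * (x * A / (g * N) + x / s)) := by
              rw [Finset.natCast_card_filter, Finset.sum_mul]
              refine Finset.sum_congr rfl fun z _ => ?_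
              by_cases h2 : g ∣ nn z
              · rw [if_pos ⟨hgp, h2⟩, if_pos h2, one_mul]
              · rw [if_neg fun h => h2 h.2, if_neg h2, zero_mul]
            rw [h1]
            exact mul_le_mul_of_nonneg_right (hZ0 N g hN hgp) (by positivity)
          · have h1 : ∑ z ∈ ZD N, (if g.Prime ∧ g ∣ nn z then 51 * C₂ * (x * A / (g * N) + x / s) else 0) = 0 := by
              refine Finset.sum_eq_zero fun z _ => ?_
              rw [if_neg fun h => hgp h.1]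
            rw [h1]
            positivity
      _ = ∑ g ∈ Ioc Z G, (51 * (C₀ * C₂) * (x * A) * (1 / (g : ℝ) ^ 2) + 51 * (C₀ * C₂) * (x * s + x * A / s) * (1 / (g : ℝ))
            + 51 * (C₀ * C₂) * x) := by
          refine Finset.sum_congr rfl fun g hg => ?_
          rw [Finset.mem_Ioc] at hg
          have hg0 : (0 : ℝ) < g := by exact_mod_cast (by omega : 0 < g)
          rw [← hss]
          field_simp
          ring
      _ = 51 * (C₀ * C₂) * (x * A) * (∑ g ∈ Ioc Z G, 1 / (g : ℝ) ^ 2)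
            + 51 * (C₀ * C₂) * (x * s + x * A / s) * (∑ g ∈ Ioc Z G, 1 / (g : ℝ))
            + (#(Ioc Z G) : ℝ) * (51 * (C₀ * C₂) * x) := by
          rw [Finset.sum_add_distrib, Finset.sum_add_distrib, Finset.mul_sum, Finset.mul_sum, Finset.sum_const, nsmul_eq_mul]
      _ ≤ 51 * (C₀ * C₂) * (x * A) * (1 / Z) + 51 * (C₀ * C₂) * (x * s + x * A / s) * ℓ
            + G * (51 * (C₀ * C₂) * x) := by
          refine add_le_add (add_le_add ?_ ?_) ?_
          · exact mul_le_mul_of_nonneg_left (NPW_sq Z G hZ) (by positivity)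
          · exact mul_le_mul_of_nonneg_left ((NPW_inv Z G hG).trans hlogG) (by positivity)
          · refine mul_le_mul_of_nonneg_right ?_ (by positivity)
            rw [Nat.card_Ioc]
            exact_mod_cast Nat.sub_le _ _
      _ = 51 * (C₀ * C₂) * ((A * x / Z) * 1 + ℓ * (x * s + A * x / s) + (x * G) * 1) := by ring
      _ ≤ 51 * (C₀ * C₂) * ((A * x / Z) * ℓ + ℓ * (x * s + A * x / s) + (x * G) * ℓ) := by
          refine mul_le_mul_of_nonneg_left ?_ (by positivity)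
          refine add_le_add (add_le_add ?_ le_rfl) ?_
          · exact mul_le_mul_of_nonneg_left hℓ1 (by positivity)
          · exact mul_le_mul_of_nonneg_left hℓ1 (by positivity)
      _ = _ := by ring
  -- part 3
  have P3 : ∑ z ∈ ZD N, ∑ g ∈ (nn z).primeFactors.filter (fun g => G < g),
      (#{w ∈ Bx R | |(ac z w : ℝ)| ≤ (A : ℝ) ∧ (g : ℤ) ∣ lc z w} : ℝ)
      ≤ 10200 * C₂ * (ℓ * (A * x / G + x * s)) := by
    have h1 : ∀ z ∈ ZD N, ∑ g ∈ (nn z).primeFactors.filter (fun g => G < g),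
        (#{w ∈ Bx R | |(ac z w : ℝ)| ≤ (A : ℝ) ∧ (g : ℤ) ∣ lc z w} : ℝ)
        ≤ (4 * ℓ) * (51 * C₂ * (x * A / (G * N) + x / s)) := by
      intro z hz
      calc ∑ g ∈ (nn z).primeFactors.filter (fun g => G < g),
            (#{w ∈ Bx R | |(ac z w : ℝ)| ≤ (A : ℝ) ∧ (g : ℤ) ∣ lc z w} : ℝ)
          ≤ ∑ g ∈ (nn z).primeFactors.filter (fun g => G < g), 51 * C₂ * (x * A / (G * N) + x / s) := by
            refine Finset.sum_le_sum fun g hg => ?_
            obtain ⟨h1, h2⟩ := Finset.mem_filter.1 hg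
            exact hBg z hz g (Nat.prime_of_mem_primeFactors h1) G hG' (by exact_mod_cast h2.le)
        _ = (#((nn z).primeFactors.filter (fun g => G < g)) : ℝ) * (51 * C₂ * (x * A / (G * N) + x / s)) := by
            rw [Finset.sum_const, nsmul_eq_mul]
        _ ≤ (4 * ℓ) * (51 * C₂ * (x * A / (G * N) + x / s)) := by
            refine mul_le_mul_of_nonneg_right ?_ (by positivity)
            have h2 : (#((nn z).primeFactors.filter (fun g => G < g)) : ℝ) ≤ (#(nn z).primeFactors : ℝ) := by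
              exact_mod_cast Finset.card_le_card (Finset.filter_subset _ _)
            refine h2.trans ((COP_pf _ N (hzn z hz).1 (hzn z hz).2 hN).trans ?_)
            linarith
    refine (Finset.sum_le_sum h1).trans ?_
    rw [Finset.sum_const, nsmul_eq_mul]
    calc (#(ZD N) : ℝ) * ((4 * ℓ) * (51 * C₂ * (x * A / (G * N) + x / s)))
        ≤ 50 * N * ((4 * ℓ) * (51 * C₂ * (x * A / (G * N) + x / s))) := mul_le_mul_of_nonneg_right hZD (by positivity)
      _ = 10200 * C₂ * (ℓ * (A * x / G + x * s)) := by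
          rw [← hss]; field_simp; ring
  -- all
  rw [Finset.natCast_card_filter, Finset.sum_product]
  calc _ ≤ ∑ z ∈ ZD N, (∑ g ∈ Ioc Z R, (#{w ∈ Bx R | w ≠ 0 ∧ (g : ℤ) ∣ w.1 ∧ (g : ℤ) ∣ w.2 ∧ |(ac z w : ℝ)| ≤ (A : ℝ)} : ℝ)
      + ∑ g ∈ (Ioc Z G).filter (fun g => g.Prime ∧ g ∣ nn z), (#{w ∈ Bx R | |(ac z w : ℝ)| ≤ (A : ℝ) ∧ (g : ℤ) ∣ lc z w} : ℝ)
      + ∑ g ∈ (nn z).primeFactors.filter (fun g => G < g), (#{w ∈ Bx R | |(ac z w : ℝ)| ≤ (A : ℝ) ∧ (g : ℤ) ∣ lc z w} : ℝ)) := by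
        refine Finset.sum_le_sum fun z hz => ?_
        rw [← Finset.natCast_card_filter]
        exact NPW_fib x N R A Z G z (by have := (hzn z hz).1; omega)
    _ ≤ 12500 * C₁ * (ℓ * (A * x / Z + x * s)) + 51 * (C₀ * C₂) * (ℓ * (A * x / Z + x * s + A * x / s + x * G))
        + 10200 * C₂ * (ℓ * (A * x / G + x * s)) := by
        rw [Finset.sum_add_distrib, Finset.sum_add_distrib]
        exact add_le_add (add_le_add P1 P2) P3
    _ ≤ 12500 * C₁ * (ℓ * (A * x / Z + x * s + A * x / s + x * G + A * x / G))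
        + 51 * (C₀ * C₂) * (ℓ * (A * x / Z + x * s + A * x / s + x * G + A * x / G))
        + 10200 * C₂ * (ℓ * (A * x / Z + x * s + A * x / s + x * G + A * x / G)) := by
        have q1 : (0 : ℝ) ≤ A * x / Z := by positivity
        have q2 : (0 : ℝ) ≤ A * x / s := by positivity
        have q3 : (0 : ℝ) ≤ x * G := by positivity
        have q4 : (0 : ℝ) ≤ A * x / G := by positivity
        refine add_le_add (add_le_add ?_ ?_) ?_
        · refine mul_le_mul_of_nonneg_left (mul_le_mul_of_nonneg_left ?_ (by linarith)) (by positivity)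
          linarith
        · refine mul_le_mul_of_nonneg_left (mul_le_mul_of_nonneg_left ?_ (by linarith)) (by positivity)
          linarith
        · refine mul_le_mul_of_nonneg_left (mul_le_mul_of_nonneg_left ?_ (by linarith)) (by positivity)
          linarith
    _ = _ := by ring

end Pool.Agent.FJ
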