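import Pool.Agent.helper95.FJ.SpecE

/-!
Row `fj:TYN` (MP_ad8ced_nt): type II sums in the narrow sector.
-/

set_option autoImplicit false
set_option linter.unusedVariables false

open Finset

noncomputable section

namespace Pool.Agent.FJ

open Pool.Agent.FI

private theorem TYN_N8mul (z w : ℤ × ℤ) : N8 (mul8 z w) = N8 z * N8 w := by
  unfold N8 mul8; ring

private theorem TYN_nnmul (z w : ℤ × ℤ) : nn (mul8 z w) = nn z * nn w := by
  unfold nn; rw [TYN_N8mul, Int.natAbs_mul]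

private theorem TYN_c1 (z w : ℤ × ℤ) :
    (mul8 z w).1 * z.1 - 8 * (mul8 z w).2 * z.2 = N8 z * w.1 := by
  unfold mul8 N8; ring

private theorem TYN_c2 (z w : ℤ × ℤ) :
    (mul8 z w).2 * z.1 - (mul8 z w).1 * z.2 = N8 z * w.2 := by
  unfold mul8 N8; ring

private theorem TYN_sqN (z : ℤ × ℤ) : (N8 z) ^ 2 = (nn z : ℤ) ^ 2 := by
  unfold nn; rw [Int.natCast_natAbs, sq_abs]

/-- the factor `w` is small -/
private theorem TYN_box {x N R : ℕ} (hN : 1 ≤ N) (hR : 1156 * x ^ 2 ≤ R ^ 2 * N) {z w ζ : ℤ × ℤ}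
    (hz1 : z.1 ^ 2 ≤ 2 * (nn z : ℤ)) (hz2 : z.2 ^ 2 ≤ (nn z : ℤ)) (hzN : N < nn z)
    (hm : mul8 z w = ζ) (h1 : 0 < ζ.1) (h1' : ζ.1 ≤ x) (h2 : (x : ℤ) < ζ.2) (h2' : ζ.2 ≤ 2 * x) :
    w ∈ Bx R := by
  set n : ℤ := (nn z : ℤ) with hn
  have hx0 : (0 : ℤ) ≤ x := Int.natCast_nonneg x
  have hnN : (N : ℤ) < n := by rw [hn]; exact_mod_cast hzN
  have hN1 : (1 : ℤ) ≤ N := by exact_mod_cast hN
  have hn0 : 0 < n := by linarith
  have hR' : 1156 * (x : ℤ) ^ 2 ≤ (R : ℤ) ^ 2 * N := by exact_mod_cast hR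
  have hζ1 : ζ.1 ^ 2 ≤ (x : ℤ) ^ 2 := by nlinarith
  have hζ2 : ζ.2 ^ 2 ≤ 4 * (x : ℤ) ^ 2 := by nlinarith
  have hx2 : (0 : ℤ) ≤ (x : ℤ) ^ 2 := by positivity
  have hz10 : (0 : ℤ) ≤ z.1 ^ 2 := by positivity
  have hz20 : (0 : ℤ) ≤ z.2 ^ 2 := by positivity
  have e1 := TYN_c1 z w
  have e2 := TYN_c2 z w
  rw [hm] at e1 e2
  have hsq := TYN_sqN z
  rw [← hn] at hsq
  -- bounds
  have b1 : n ^ 2 * w.1 ^ 2 ≤ 516 * (x : ℤ) ^ 2 * n := by
    have : n ^ 2 * w.1 ^ 2 = (ζ.1 * z.1 - 8 * ζ.2 * z.2) ^ 2 := by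
      rw [e1, mul_pow, hsq]
    rw [this]
    have p1 : (ζ.1 * z.1) ^ 2 ≤ (x : ℤ) ^ 2 * (2 * n) := by
      rw [mul_pow]; exact mul_le_mul hζ1 hz1 hz10 hx2
    have p2 : (ζ.2 * z.2) ^ 2 ≤ 4 * (x : ℤ) ^ 2 * n := by
      rw [mul_pow]; exact mul_le_mul hζ2 hz2 hz20 (by positivity)
    nlinarith [sq_nonneg (ζ.1 * z.1 + 8 * (ζ.2 * z.2))]
  have b2 : n ^ 2 * w.2 ^ 2 ≤ 18 * (x : ℤ) ^ 2 * n := by
    have : n ^ 2 * w.2 ^ 2 = (ζ.2 * z.1 - ζ.1 * z.2) ^ 2 := by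
      rw [e2, mul_pow, hsq]
    rw [this]
    have p1 : (ζ.2 * z.1) ^ 2 ≤ 4 * (x : ℤ) ^ 2 * (2 * n) := by
      rw [mul_pow]; exact mul_le_mul hζ2 hz1 hz10 (by positivity)
    have p2 : (ζ.1 * z.2) ^ 2 ≤ (x : ℤ) ^ 2 * n := by
      rw [mul_pow]; exact mul_le_mul hζ1 hz2 hz20 hx2
    nlinarith [sq_nonneg (ζ.2 * z.1 + ζ.1 * z.2)]
  have c1 : n * w.1 ^ 2 ≤ 516 * (x : ℤ) ^ 2 := by
    have : n * (n * w.1 ^ 2) ≤ n * (516 * (x : ℤ) ^ 2) := by nlinarith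
    exact le_of_mul_le_mul_left this hn0
  have c2 : n * w.2 ^ 2 ≤ 18 * (x : ℤ) ^ 2 := by
    have : n * (n * w.2 ^ 2) ≤ n * (18 * (x : ℤ) ^ 2) := by nlinarith
    exact le_of_mul_le_mul_left this hn0
  have key : ∀ t : ℤ, n * t ^ 2 ≤ 516 * (x : ℤ) ^ 2 → -(R : ℤ) ≤ t ∧ t ≤ R := by
    intro t ht
    have h3 : (N : ℤ) * t ^ 2 ≤ N * (R : ℤ) ^ 2 := by
      have : (N : ℤ) * t ^ 2 ≤ n * t ^ 2 := by
        apply mul_le_mul_of_nonneg_right hnN.le (sq_nonneg t)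
      linarith
    have h4 : t ^ 2 ≤ (R : ℤ) ^ 2 := le_of_mul_le_mul_left h3 (by linarith)
    exact abs_le.mp (abs_le_of_sq_le_sq h4 (Int.natCast_nonneg R))
  unfold Bx
  rw [Finset.mem_product, Finset.mem_Icc, Finset.mem_Icc]
  exact ⟨key _ c1, key _ (by linarith)⟩

private theorem TYN_cop {z w ζ : ℤ × ℤ} (hm : mul8 z w = ζ) (h : IsCoprime ζ.1 ζ.2) : IsCoprime z.1 z.2 := by
  obtain ⟨a, b, hab⟩ := h
  refine ⟨a * w.1 + b * w.2, 8 * a * w.2 + b * w.1, ?_⟩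
  rw [← hm] at hab
  unfold mul8 at hab
  linear_combination hab

private theorem TYN_odd {z w ζ : ℤ × ℤ} (hm : mul8 z w = ζ) (h : ζ.1 % 2 = 1) : w.1 % 2 = 1 := by
  rcases Int.emod_two_eq_zero_or_one w.1 with h0 | h0
  · exfalso
    have h2 : (2 : ℤ) ∣ w.1 := Int.dvd_of_emod_eq_zero h0
    have h3 : (2 : ℤ) ∣ ζ.1 := by
      rw [← hm]
      unfold mul8
      exact dvd_add (Dvd.dvd.mul_left h2 _) ⟨4 * z.2 * w.2, by ring⟩
    omega
  · exact h0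

open scoped Classical in
private theorem TYN_FFmono {u v : ℕ} (huv : u ≤ v) {z : ℤ × ℤ} (h : z ∈ FF u) : z ∈ FF v := by
  unfold FF at h ⊢
  rw [Finset.mem_filter, Finset.mem_product, Finset.mem_Icc, Finset.mem_Icc] at h ⊢
  have : (u : ℤ) ≤ v := by exact_mod_cast huv
  refine ⟨⟨⟨?_, ?_⟩, ?_, ?_⟩, h.2.1, h.2.2.trans huv⟩ <;> [linarith [h.1.1.1]; linarith [h.1.1.2]; linarith [h.1.2.1]; linarith [h.1.2.2]]

open scoped Classical in
private theorem TYN_ZD {N : ℕ} {z : ℤ × ℤ} (h : z ∈ ZD N) :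
    Fd z ∧ N < nn z ∧ nn z ≤ 2 * N ∧ IsCoprime z.1 z.2 := by
  unfold ZD at h
  rw [Finset.mem_filter] at h
  unfold FF at h
  rw [Finset.mem_filter] at h
  exact ⟨h.1.2.1, h.2.1, h.1.2.2, h.2.2⟩

/-- the pairs `(w, z)` with product `ζ` -/
def TYN_P (N R : ℕ) (ζ : ℤ × ℤ) : Finset ((ℤ × ℤ) × (ℤ × ℤ)) :=
  ((Bx R).filter (fun w => w.1 % 2 = 1) ×ˢ ZD N).filter (fun p => mul8 p.2 p.1 = ζ)

private theorem TYN_memP {N R : ℕ} {ζ : ℤ × ℤ} {p : (ℤ × ℤ) × (ℤ × ℤ)} :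
    p ∈ TYN_P N R ζ ↔ ((p.1 ∈ Bx R ∧ p.1.1 % 2 = 1) ∧ p.2 ∈ ZD N) ∧ mul8 p.2 p.1 = ζ := by
  unfold TYN_P
  rw [Finset.mem_filter, Finset.mem_product, Finset.mem_filter]

/-- primitive `ζ` -/
private theorem TYN_prim (hDVE : DVE_stmt) (hDVU : DVU_stmt) (hSIZ : SIZ_stmt) {x N R : ℕ} (hN : 1 ≤ N)
    (hR : 1156 * x ^ 2 ≤ R ^ 2 * N) {ζ : ℤ × ℤ} (hodd : ζ.1 % 2 = 1) (hc : IsCoprime ζ.1 ζ.2)
    (h1 : 0 < ζ.1) (h1' : ζ.1 ≤ x) (h2 : (x : ℤ) < ζ.2) (h2' : ζ.2 ≤ 2 * x) (h0 : nn ζ ≠ 0) (β α : ℕ → ℝ) :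
    ∑ p ∈ TYN_P N R ζ, β (nn p.2) * α (nn p.1)
      = ∑ m ∈ (nn ζ).divisors with N < m ∧ m ≤ 2 * N, β m * α (nn ζ / m) := by
  apply Finset.sum_nbij (fun p => nn p.2)
  · intro p hp
    rw [TYN_memP] at hp
    obtain ⟨_, h3, h4, _⟩ := TYN_ZD hp.1.2
    rw [Finset.mem_filter, Nat.mem_divisors]
    refine ⟨⟨⟨nn p.1, ?_⟩, h0⟩, h3, h4⟩
    rw [← TYN_nnmul, hp.2]
  · intro p hp q hq hpq
    rw [Finset.mem_coe, TYN_memP] at hp hq
    obtain ⟨hf, _⟩ := TYN_ZD hp.1.2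
    obtain ⟨hf', _⟩ := TYN_ZD hq.1.2
    obtain ⟨e1, e2⟩ := hDVU ζ (nn p.2) p.2 p.1 q.2 q.1 hodd hc hf hf' rfl hpq.symm hp.2 hq.2
    exact Prod.ext e2 e1
  · intro m hm
    rw [Finset.mem_coe, Finset.mem_filter, Nat.mem_divisors] at hm
    obtain ⟨⟨⟨k, hk⟩, _⟩, h3, h4⟩ := hm
    obtain ⟨z, w, hf, hz, hzw⟩ := hDVE ζ m k hodd hc hk
    obtain ⟨s1, s2, s3, s4, _⟩ := hSIZ z hf
    refine ⟨(w, z), ?_, hz⟩
    rw [Finset.mem_coe, TYN_memP]
    refine ⟨⟨⟨?_, TYN_odd hzw hodd⟩, ?_⟩, hzw⟩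
    · exact TYN_box hN hR s1 s2 (by rw [hz]; exact h3) hzw h1 h1' h2 h2'
    · unfold ZD
      rw [Finset.mem_filter]
      exact ⟨TYN_FFmono (by rw [hz]; exact h4) s4, by rw [hz]; exact h3, TYN_cop hzw hc⟩
  · intro p hp
    rw [TYN_memP] at hp
    obtain ⟨_, h3, h4, _⟩ := TYN_ZD hp.1.2
    have : nn ζ / nn p.2 = nn p.1 := by
      rw [← hp.2, TYN_nnmul]
      exact Nat.mul_div_cancel_left _ (by omega)
    rw [this]

/-- the points of the range with odd first coordinate -/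
def TYN_Q (x A : ℕ) : Finset (ℤ × ℤ) := (Icc (1 : ℤ) A ×ˢ Ioc (x : ℤ) (2 * x)).filter (fun ζ => ζ.1 % 2 = 1)

private theorem TYN_memQ {x A : ℕ} {ζ : ℤ × ℤ} :
    ζ ∈ TYN_Q x A ↔ ((1 ≤ ζ.1 ∧ ζ.1 ≤ A) ∧ (x : ℤ) < ζ.2 ∧ ζ.2 ≤ 2 * x) ∧ ζ.1 % 2 = 1 := by
  unfold TYN_Q
  rw [Finset.mem_filter, Finset.mem_product, Finset.mem_Icc, Finset.mem_Ioc]

private theorem TYN_PZ (x A : ℕ) : PZ x A = (TYN_Q x A).filter (fun ζ => IsCoprime ζ.1 ζ.2) := by
  ext ζ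
  unfold PZ
  rw [Finset.mem_filter, Finset.mem_filter, TYN_memQ, Finset.mem_product, Finset.mem_Icc, Finset.mem_Ioc]
  tauto

/-- the bilinear form as a sum over the products -/
private theorem TYN_S {x A N R : ℕ} {lm : ℤ → ℝ} (β α : ℕ → ℝ)
    (hlm : ∀ l, lm l ≠ 0 → (x : ℤ) < l ∧ l ≤ 2 * x) :
    ∑ w ∈ Bx R with w.1 % 2 = 1, ∑ z ∈ ZD N, β (nn z) * α (nn w) * lm (lc z w) * ga A (ac z w)
      = ∑ ζ ∈ TYN_Q x A, lm ζ.2 * ∑ p ∈ TYN_P N R ζ, β (nn p.2) * α (nn p.1) := by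
  rw [← Finset.sum_product']
  have e : ∀ ζ ∈ TYN_Q x A, lm ζ.2 * ∑ p ∈ TYN_P N R ζ, β (nn p.2) * α (nn p.1)
      = ∑ p ∈ ((Bx R).filter (fun w => w.1 % 2 = 1) ×ˢ ZD N), if mul8 p.2 p.1 = ζ then
          lm ζ.2 * (β (nn p.2) * α (nn p.1)) else 0 := by
    intro ζ _
    unfold TYN_P
    rw [Finset.mul_sum, Finset.sum_filter]
  rw [Finset.sum_congr rfl e, Finset.sum_comm]
  apply Finset.sum_congr rfl
  intro p hp
  rw [Finset.mem_product, Finset.mem_filter] at hp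
  rw [Finset.sum_ite_eq]
  have h1 : lc p.2 p.1 = (mul8 p.2 p.1).2 := rfl
  have h2 : ac p.2 p.1 = (mul8 p.2 p.1).1 := rfl
  rw [h1, h2]
  obtain ⟨hFd, _⟩ := TYN_ZD hp.2
  have hodd : (mul8 p.2 p.1).1 % 2 = 1 := by
    have a1 := hFd.1
    have a2 := hp.1.2
    have : (mul8 p.2 p.1).1 = p.2.1 * p.1.1 + 2 * (4 * p.2.2 * p.1.2) := by unfold mul8; ring
    rw [this, Int.add_mul_emod_self_left, Int.mul_emod, a1, a2]
    rfl
  by_cases hQ : mul8 p.2 p.1 ∈ TYN_Q x A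
  · rw [if_pos hQ]
    rw [TYN_memQ] at hQ
    have : ga A (mul8 p.2 p.1).1 = 1 := by
      unfold ga
      rw [if_pos ⟨by omega, hQ.1.1.2⟩]
    rw [this]; ring
  · rw [if_neg hQ]
    by_cases hl : lm (mul8 p.2 p.1).2 = 0
    · rw [hl]; ring
    · have hg : ga A (mul8 p.2 p.1).1 = 0 := by
        unfold ga
        rw [if_neg]
        intro hc
        apply hQ
        rw [TYN_memQ]
        have := hlm _ hl
        exact ⟨⟨⟨by omega, hc.2⟩, this.1, this.2⟩, hodd⟩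
      rw [hg]; ring

private theorem TYN_nnQ {x A : ℕ} (hA : A ≤ x) {ζ : ℤ × ℤ} (h : ζ ∈ TYN_Q x A) :
    nn ζ ≠ 0 ∧ nn ζ ≤ 32 * x ^ 2 := by
  rw [TYN_memQ] at h
  obtain ⟨⟨⟨h1, h2⟩, h3, h4⟩, _⟩ := h
  have hA' : (A : ℤ) ≤ x := by exact_mod_cast hA
  have hx0 : (0 : ℤ) ≤ x := Int.natCast_nonneg x
  have e1 : ζ.1 ^ 2 ≤ (x : ℤ) ^ 2 := by nlinarith
  have e2 : (x : ℤ) ^ 2 < ζ.2 ^ 2 := by nlinarith
  have e3 : ζ.2 ^ 2 ≤ 4 * (x : ℤ) ^ 2 := by nlinarith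
  have hx2 : (0 : ℤ) ≤ (x : ℤ) ^ 2 := by positivity
  have h10 : (0 : ℤ) ≤ ζ.1 ^ 2 := by positivity
  have hneg : N8 ζ < 0 := by unfold N8; linarith
  have hlow : -(32 * (x : ℤ) ^ 2) ≤ N8 ζ := by unfold N8; linarith
  constructor
  · unfold nn
    intro h0
    rw [Int.natAbs_eq_zero] at h0
    omega
  · have : ((nn ζ : ℕ) : ℤ) ≤ ((32 * x ^ 2 : ℕ) : ℤ) := by
      unfold nn
      rw [Int.natCast_natAbs, abs_of_neg hneg]
      push_cast
      linarith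
    exact_mod_cast this

private theorem TYN_dyad (D : Finset ℕ) (f : ℕ → ℝ) : ∀ J : ℕ,
    ∑ m ∈ D with 1 < m ∧ m ≤ 2 ^ J, f m
      = ∑ j ∈ range J, ∑ m ∈ D with 2 ^ j < m ∧ m ≤ 2 * 2 ^ j, f m
  | 0 => by
      rw [Finset.range_zero, Finset.sum_empty]
      apply Finset.sum_eq_zero
      intro m hm
      rw [Finset.mem_filter] at hm
      omega
  | J + 1 => by
      rw [Finset.sum_range_succ, ← TYN_dyad D f J, Finset.sum_filter, Finset.sum_filter, Finset.sum_filter,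
        ← Finset.sum_add_distrib]
      apply Finset.sum_congr rfl
      intro m _
      have h1 : 2 ^ (J + 1) = 2 * 2 ^ J := by ring
      have h2 : 1 ≤ 2 ^ J := Nat.one_le_two_pow
      rw [h1]
      generalize 2 ^ J = a at h2 ⊢
      split_ifs <;> first | omega | simp

open scoped Classical in
/-- the pairs with a product which is not primitive -/
private def TYN_NP (x A Z N R : ℕ) : Finset ((ℤ × ℤ) × (ℤ × ℤ)) :=
  ((Bx R).filter (fun w => w.1 % 2 = 1) ×ˢ ZD N).filter (fun p => (x : ℤ) < lc p.2 p.1 ∧ lc p.2 p.1 ≤ 2 * x ∧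
    0 < ac p.2 p.1 ∧ ac p.2 p.1 ≤ A ∧ ¬ IsCoprime (ac p.2 p.1) (lc p.2 p.1) ∧
    ∀ g : ℕ, g.Prime → g ≤ Z → ¬ (g : ℤ) ∣ lc p.2 p.1)

open scoped Classical in
private theorem TYN_card (x A Z N R : ℕ) : #(TYN_NP x A Z N R) ≤
    #{t ∈ ZD N ×ˢ Bx R | t.2.1 % 2 = 1 ∧ (x : ℤ) < lc t.1 t.2 ∧ lc t.1 t.2 ≤ 2 * x ∧ 0 < ac t.1 t.2 ∧ ac t.1 t.2 ≤ A ∧
      ¬ IsCoprime (ac t.1 t.2) (lc t.1 t.2) ∧ ∀ g : ℕ, g.Prime → g ≤ Z → ¬ (g : ℤ) ∣ lc t.1 t.2} := by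
  refine Finset.card_le_card_of_injOn Prod.swap ?_ ?_
  · intro p hp
    rw [Finset.mem_coe, TYN_NP, Finset.mem_filter, Finset.mem_product, Finset.mem_filter] at hp
    rw [Finset.mem_coe, Finset.mem_filter, Finset.mem_product]
    exact ⟨⟨hp.1.2, hp.1.1.1⟩, hp.1.1.2, hp.2⟩
  · intro p _ q _ h
    exact Prod.swap_injective h

open scoped Classical in
private theorem TYN_npsum {x A Z N R : ℕ} {lm : ℤ → ℝ} {M B₀ : ℝ} (hM : 0 ≤ M) (hB₀ : 0 ≤ B₀)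
    (hlm : LamOK x Z M lm) {β α : ℕ → ℝ} (hβ : ∀ m, |β m| ≤ B₀) (hα : ∀ k, |α k| ≤ #k.divisors) :
    |∑ ζ ∈ TYN_Q x A with ¬ IsCoprime ζ.1 ζ.2, lm ζ.2 * ∑ p ∈ TYN_P N R ζ, β (nn p.2) * α (nn p.1)|
      ≤ M * B₀ * ∑ p ∈ TYN_NP x A Z N R, (#(nn p.1).divisors : ℝ) := by
  have e : ∀ ζ ∈ (TYN_Q x A).filter (fun ζ => ¬ IsCoprime ζ.1 ζ.2), lm ζ.2 * ∑ p ∈ TYN_P N R ζ, β (nn p.2) * α (nn p.1)
      = ∑ p ∈ ((Bx R).filter (fun w => w.1 % 2 = 1) ×ˢ ZD N), if mul8 p.2 p.1 = ζ then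
          lm ζ.2 * (β (nn p.2) * α (nn p.1)) else 0 := by
    intro ζ _
    unfold TYN_P
    rw [Finset.mul_sum, Finset.sum_filter]
  rw [Finset.sum_congr rfl e, Finset.sum_comm]
  refine (Finset.abs_sum_le_sum_abs _ _).trans ?_
  unfold TYN_NP
  rw [Finset.sum_filter, Finset.mul_sum]
  refine Finset.sum_le_sum fun p hp => ?_
  rw [Finset.sum_ite_eq]
  have hnn : 0 ≤ M * B₀ * (if (x : ℤ) < lc p.2 p.1 ∧ lc p.2 p.1 ≤ 2 * x ∧
    0 < ac p.2 p.1 ∧ ac p.2 p.1 ≤ A ∧ ¬ IsCoprime (ac p.2 p.1) (lc p.2 p.1) ∧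
    ∀ g : ℕ, g.Prime → g ≤ Z → ¬ (g : ℤ) ∣ lc p.2 p.1 then (#(nn p.1).divisors : ℝ) else 0) := by
    refine mul_nonneg (mul_nonneg hM hB₀) ?_
    split_ifs
    · positivity
    · exact le_rfl
  by_cases hQ : mul8 p.2 p.1 ∈ (TYN_Q x A).filter (fun ζ => ¬ IsCoprime ζ.1 ζ.2)
  · rw [if_pos hQ]
    by_cases hl : lm (mul8 p.2 p.1).2 = 0
    · rw [hl, zero_mul, abs_zero]
      exact hnn
    · obtain ⟨hQ1, hQ2⟩ := Finset.mem_filter.1 hQ
      rw [TYN_memQ] at hQ1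
      obtain ⟨h1, h2, h3⟩ := hlm.2 _ hl
      have hc : (x : ℤ) < lc p.2 p.1 ∧ lc p.2 p.1 ≤ 2 * x ∧
          0 < ac p.2 p.1 ∧ ac p.2 p.1 ≤ A ∧ ¬ IsCoprime (ac p.2 p.1) (lc p.2 p.1) ∧
          ∀ g : ℕ, g.Prime → g ≤ Z → ¬ (g : ℤ) ∣ lc p.2 p.1 := by
        refine ⟨h1, h2, ?_, hQ1.1.1.2, hQ2, h3⟩
        have := hQ1.1.1.1
        exact this
      rw [if_pos hc, abs_mul, abs_mul]
      calc |lm (mul8 p.2 p.1).2| * (|β (nn p.2)| * |α (nn p.1)|)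
          ≤ M * (B₀ * #(nn p.1).divisors) := by
            refine mul_le_mul (hlm.1 _) ?_ (by positivity) hM
            exact mul_le_mul (hβ _) (hα _) (abs_nonneg _) hB₀
        _ = _ := by ring
  · rw [if_neg hQ, abs_zero]
    exact hnn

open scoped Classical in
private theorem TYN_sqsum {x A Z N R : ℕ} {K₀ : ℝ}
    (hK : ∀ w : ℤ × ℤ, (#{z ∈ ZD N | (x : ℤ) < lc z w ∧ |(ac z w : ℝ) - (0 : ℤ)| ≤ (A : ℝ)} : ℝ) ≤ K₀) :
    ∑ p ∈ TYN_NP x A Z N R, (#(nn p.1).divisors : ℝ) ^ 2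
      ≤ K₀ * ∑ w ∈ Bx R with w.1 % 2 = 1, (#(nn w).divisors : ℝ) ^ 2 := by
  unfold TYN_NP
  rw [Finset.sum_filter, Finset.sum_product, Finset.mul_sum]
  refine Finset.sum_le_sum fun w _ => ?_
  have h1 : ∀ z ∈ ZD N, (if (x : ℤ) < lc z w ∧ lc z w ≤ 2 * x ∧
    0 < ac z w ∧ ac z w ≤ A ∧ ¬ IsCoprime (ac z w) (lc z w) ∧
    ∀ g : ℕ, g.Prime → g ≤ Z → ¬ (g : ℤ) ∣ lc z w then (#(nn w).divisors : ℝ) ^ 2 else 0)
      ≤ (if (x : ℤ) < lc z w ∧ |(ac z w : ℝ) - (0 : ℤ)| ≤ (A : ℝ) then (1 : ℝ) else 0) * (#(nn w).divisors : ℝ) ^ 2 := by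
    intro z _
    by_cases hc : (x : ℤ) < lc z w ∧ lc z w ≤ 2 * x ∧
      0 < ac z w ∧ ac z w ≤ A ∧ ¬ IsCoprime (ac z w) (lc z w) ∧
      ∀ g : ℕ, g.Prime → g ≤ Z → ¬ (g : ℤ) ∣ lc z w
    · rw [if_pos hc]
      have hab : |(ac z w : ℝ) - (0 : ℤ)| ≤ (A : ℝ) := by
        have e1 : (0 : ℝ) < (ac z w : ℝ) := by exact_mod_cast hc.2.2.1
        rw [Int.cast_zero, sub_zero, abs_of_pos e1]
        exact_mod_cast hc.2.2.2.1
      rw [if_pos ⟨hc.1, hab⟩, one_mul]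
    · rw [if_neg hc]
      split_ifs
      · positivity
      · rw [zero_mul]
  refine (Finset.sum_le_sum h1).trans ?_
  rw [← Finset.sum_mul, ← Finset.natCast_card_filter]
  exact mul_le_mul_of_nonneg_right (hK w) (by positivity)

open scoped Classical in
/-- one block: the bilinear form and the pairs which are not primitive -/
private theorem TYN_block (hDVE : DVE_stmt) (hDVU : DVU_stmt) (hSIZ : SIZ_stmt)
    {x A N R Z : ℕ} (hA : A ≤ x) (hN : 1 ≤ N) (hR : 1156 * x ^ 2 ≤ R ^ 2 * N)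
    {lm : ℤ → ℝ} {M B₀ : ℝ} (hM : 0 ≤ M) (hB₀ : 0 ≤ B₀) (hlm : LamOK x Z M lm) {β α : ℕ → ℝ}
    (hβ : ∀ m, |β m| ≤ B₀) (hα : ∀ k, |α k| ≤ #k.divisors) :
    |∑ ζ ∈ PZ x A, lm ζ.2 * ∑ m ∈ (nn ζ).divisors with N < m ∧ m ≤ 2 * N, β m * α (nn ζ / m)|
      ≤ |∑ w ∈ Bx R with w.1 % 2 = 1, ∑ z ∈ ZD N, β (nn z) * α (nn w) * lm (lc z w) * ga A (ac z w)|
        + M * B₀ * ∑ p ∈ TYN_NP x A Z N R, (#(nn p.1).divisors : ℝ) := by
  set G : ℤ × ℤ → ℝ := fun ζ => ∑ p ∈ TYN_P N R ζ, β (nn p.2) * α (nn p.1) with hG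
  have e1 : ∑ ζ ∈ PZ x A, lm ζ.2 * ∑ m ∈ (nn ζ).divisors with N < m ∧ m ≤ 2 * N,
        β m * α (nn ζ / m) = ∑ ζ ∈ PZ x A, lm ζ.2 * G ζ := by
    apply Finset.sum_congr rfl
    intro ζ hζ
    rw [TYN_PZ, Finset.mem_filter] at hζ
    obtain ⟨h0, _⟩ := TYN_nnQ hA hζ.1
    have hq := hζ.1
    rw [TYN_memQ] at hq
    have hA' : (A : ℤ) ≤ x := by exact_mod_cast hA
    rw [← TYN_prim hDVE hDVU hSIZ hN hR hq.2 hζ.2 (by omega) (by omega) hq.1.2.1 hq.1.2.2 h0 β α]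
  have e2 := TYN_S (A := A) (N := N) (R := R) β α (fun l hl => ⟨(hlm.2 l hl).1, (hlm.2 l hl).2.1⟩)
  have e3 := Finset.sum_filter_add_sum_filter_not (TYN_Q x A) (fun ζ => IsCoprime ζ.1 ζ.2) (fun ζ => lm ζ.2 * G ζ)
  rw [← TYN_PZ] at e3
  rw [e1, e2]
  have e4 : ∑ ζ ∈ PZ x A, lm ζ.2 * G ζ = (∑ ζ ∈ TYN_Q x A, lm ζ.2 * G ζ)
      - ∑ ζ ∈ TYN_Q x A with ¬ IsCoprime ζ.1 ζ.2, lm ζ.2 * G ζ := by
    rw [← e3]; ring
  rw [e4]
  refine (abs_sub _ _).trans ?_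
  exact add_le_add le_rfl (TYN_npsum hM hB₀ hlm hβ hα)

/-- the estimate for the pairs which are not primitive -/
private theorem TYN_part {C₁ Cz Ct : ℝ} (hC₁ : 0 < C₁) (hCz : 0 < Cz) (hCt : 0 < Ct)
    {x N R A Z G : ℕ} (hS : Siz x N R A) (hZ : 1 ≤ Z) (hG : 1 ≤ G) {L h : ℝ} (hL : L = Real.log x) (hL1 : 1 ≤ L)
    (hh : 1 ≤ h) (c1 : √(N : ℝ) * h ≤ A) (c2 : h ≤ √(N : ℝ)) (c3 : h ≤ G) (c4 : (G : ℝ) ≤ 2 * h) (c5 : h ^ 2 ≤ A)
    (hNP : (#(TYN_NP x A Z N R) : ℝ) ≤ C₁ * (1 + Real.log x) * (A * x / Z + x * √N + A * x / √N + x * G + A * x / G))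
    (hK : ∀ w : ℤ × ℤ, (#{z ∈ ZD N | (x : ℤ) < lc z w ∧ |(ac z w : ℝ) - (0 : ℤ)| ≤ (A : ℝ)} : ℝ)
      ≤ Cz * (√N * (A * √N / x + 1)))
    (hTD : ∑ w ∈ Bx R with w.1 % 2 = 1, ((nn w).divisors.card : ℝ) ^ 2 ≤ Ct * R ^ 2 * (1 + Real.log R) ^ 40) :
    (∑ p ∈ TYN_NP x A Z N R, (#(nn p.1).divisors : ℝ)) ^ 2
      ≤ 10 ^ 44 * (C₁ * Cz * Ct) * L ^ 41 * (1 / Z + 5 / h) * (A * x) ^ 2 := by
  obtain ⟨hx, hN, hR, hA, hAx, hR1, hR2, hAN1, hAN2⟩ := hS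
  have hx' : (1 : ℝ) ≤ x := by exact_mod_cast hx
  have hx0 : (0 : ℝ) < x := by linarith
  have hN' : (1 : ℝ) ≤ N := by exact_mod_cast hN
  have hR' : (1 : ℝ) ≤ R := by exact_mod_cast hR
  have hA' : (1 : ℝ) ≤ A := by exact_mod_cast hA
  have hZ' : (1 : ℝ) ≤ Z := by exact_mod_cast hZ
  have hG' : (1 : ℝ) ≤ G := by exact_mod_cast hG
  have hAx' : (A : ℝ) ≤ x := by exact_mod_cast hAx
  have hh0 : 0 < h := by linarith
  rw [← hL] at hNP
  set s : ℝ := √(N : ℝ) with hs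
  have hs0 : 0 < s := by linarith
  have hss : s * s = N := Real.mul_self_sqrt (by linarith)
  have hxs : (x : ℝ) ≤ A * s := by
    have h1 : (x : ℝ) ^ 2 ≤ (A : ℝ) ^ 2 * N := by exact_mod_cast hAN1
    apply le_of_sq_le_sq _ (by positivity)
    have : ((A : ℝ) * s) ^ 2 = (A : ℝ) ^ 2 * N := by rw [← hss]; ring
    rw [this]
    exact h1
  -- the number
  have hcard : (#(TYN_NP x A Z N R) : ℝ) ≤ C₁ * (2 * L) * ((A * x) * (1 / Z + 5 / h)) := by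
    refine hNP.trans ?_
    refine mul_le_mul (mul_le_mul_of_nonneg_left (by linarith) hC₁.le) ?_ (by positivity) (by positivity)
    have b1 : (x : ℝ) * s ≤ A * x * (1 / h) := by
      rw [mul_one_div, le_div_iff₀ hh0]
      nlinarith
    have b2 : (A : ℝ) * x / s ≤ A * x * (1 / h) := by
      rw [mul_one_div]
      exact div_le_div_of_nonneg_left (by positivity) hh0 c2
    have b3 : (x : ℝ) * G ≤ 2 * (A * x * (1 / h)) := by
      have e : 2 * ((A : ℝ) * x * (1 / h)) = (2 * (A * x)) / h := by ring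
      rw [e, le_div_iff₀ hh0]
      have : (G : ℝ) * h ≤ 2 * A := by nlinarith
      nlinarith
    have b4 : (A : ℝ) * x / G ≤ A * x * (1 / h) := by
      rw [mul_one_div]
      exact div_le_div_of_nonneg_left (by positivity) hh0 c3
    have e : (A * x : ℝ) * (1 / Z + 5 / h) = A * x / Z + 5 * (A * x * (1 / h)) := by ring
    rw [e]
    linarith
  -- the divisor moment
  have hlogR : 1 + Real.log R ≤ 10 * L := by
    have h1 : (R : ℝ) ≤ 50 * x := by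
      have h2 : ((R : ℝ)) ^ 2 * N ≤ 2500 * (x : ℝ) ^ 2 := by exact_mod_cast hR2
      apply le_of_sq_le_sq _ (by positivity)
      nlinarith [sq_nonneg (R : ℝ)]
    have h2 : Real.log R ≤ Real.log (50 * x) := Real.log_le_log (by linarith) h1
    rw [Real.log_mul (by norm_num) (by linarith)] at h2
    have h3 : Real.log 50 ≤ 4 := by
      rw [Real.log_le_iff_le_exp (by norm_num)]
      have h4 := Real.exp_one_gt_d9
      have h5 : Real.exp 4 = Real.exp 1 ^ 4 := by rw [← Real.exp_nat_mul]; norm_num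
      rw [h5]
      have h6 : (2.7 : ℝ) ≤ Real.exp 1 := by linarith
      calc (50 : ℝ) ≤ 2.7 ^ 4 := by norm_num
        _ ≤ Real.exp 1 ^ 4 := pow_le_pow_left₀ (by norm_num) h6 4
    rw [← hL] at h2
    linarith
  have hlogR0 : 0 ≤ 1 + Real.log R := by
    have := Real.log_nonneg hR'
    linarith
  have hsq : ∑ p ∈ TYN_NP x A Z N R, (#(nn p.1).divisors : ℝ) ^ 2 ≤ 5000 * 10 ^ 40 * (Cz * Ct) * L ^ 40 * (A * x) := by
    refine (TYN_sqsum hK).trans ?_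
    have hK0 : Cz * (s * (A * s / x + 1)) ≤ Cz * (2 * (A * N / x)) := by
      refine mul_le_mul_of_nonneg_left ?_ hCz.le
      have e1 : s * (A * s / x + 1) = A * N / x + s := by rw [← hss]; ring
      have e2 : s ≤ A * N / x := by
        rw [le_div_iff₀ hx0, ← hss]
        nlinarith
      rw [e1]; linarith
    have hR2' : ((R : ℝ)) ^ 2 * N ≤ 2500 * (x : ℝ) ^ 2 := by exact_mod_cast hR2
    calc Cz * (s * (A * s / x + 1)) * ∑ w ∈ Bx R with w.1 % 2 = 1, (#(nn w).divisors : ℝ) ^ 2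
        ≤ Cz * (2 * (A * N / x)) * (Ct * R ^ 2 * (1 + Real.log R) ^ 40) := by
          refine mul_le_mul hK0 hTD (Finset.sum_nonneg fun _ _ => by positivity) (by positivity)
      _ ≤ Cz * (2 * (A * N / x)) * (Ct * R ^ 2 * (10 * L) ^ 40) := by
          refine mul_le_mul_of_nonneg_left ?_ (by positivity)
          exact mul_le_mul_of_nonneg_left (pow_le_pow_left₀ hlogR0 hlogR 40) (by positivity)
      _ = 2 * 10 ^ 40 * (Cz * Ct) * L ^ 40 * (A / x) * (R ^ 2 * N) := by ring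
      _ ≤ 2 * 10 ^ 40 * (Cz * Ct) * L ^ 40 * (A / x) * (2500 * x ^ 2) :=
          mul_le_mul_of_nonneg_left hR2' (by positivity)
      _ = 5000 * 10 ^ 40 * (Cz * Ct) * L ^ 40 * (A * x) := by
          field_simp
          ring
  calc (∑ p ∈ TYN_NP x A Z N R, (#(nn p.1).divisors : ℝ)) ^ 2
      ≤ #(TYN_NP x A Z N R) * ∑ p ∈ TYN_NP x A Z N R, (#(nn p.1).divisors : ℝ) ^ 2 := sq_sum_le_card_mul_sum_sq
    _ ≤ (C₁ * (2 * L) * ((A * x) * (1 / Z + 5 / h))) * (5000 * 10 ^ 40 * (Cz * Ct) * L ^ 40 * (A * x)) :=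
        mul_le_mul hcard hsq (Finset.sum_nonneg fun _ _ => by positivity) (by positivity)
    _ = _ := by ring

private theorem TYN_large (η : ℝ) (hη : 0 < η) (b x1 : ℕ) (Λ : ℝ) :
    ∃ x₀ : ℕ, ∀ x : ℕ, x₀ ≤ x → x1 ≤ x ∧ Λ ≤ Real.log x ∧ Real.log x ^ b ≤ (x : ℝ) ^ (η / 4) := by
  have t1 : Filter.Tendsto (fun x : ℕ => Real.log x) Filter.atTop Filter.atTop :=
    Real.tendsto_log_atTop.comp tendsto_natCast_atTop_atTop
  have e1 := t1.eventually_ge_atTop (max Λ 1)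
  have e2 := tendsto_natCast_atTop_atTop.eventually ((isLittleO_log_rpow_rpow_atTop (b : ℝ) (by positivity : 0 < η / 4)).bound one_pos)
  have e3 := Filter.eventually_ge_atTop x1
  obtain ⟨x₀, hx₀⟩ := Filter.eventually_atTop.1 (e1.and (e2.and e3))
  refine ⟨x₀, fun x hx => ?_⟩
  obtain ⟨h1, h2, h3⟩ := hx₀ x hx
  have h4 : (1 : ℝ) ≤ Real.log x := (le_max_right _ _).trans h1
  refine ⟨h3, (le_max_left _ _).trans h1, ?_⟩
  rw [one_mul, Real.norm_of_nonneg (by positivity), Real.norm_of_nonneg (by positivity), Real.rpow_natCast] at h2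
  exact h2

theorem TYN (hDVE : DVE_stmt) (hDVU : DVU_stmt) (hSIZ : SIZ_stmt) (hFFC : FFC_stmt) (hCZP : CZP_stmt) (hTDW : TDW_stmt) (hNPW : NPW_stmt) (hT2N : T2N_stmt) : TYN_stmt := by
  classical
  intro η hη B
  obtain ⟨E0, x1, hT⟩ := hT2N (η / 2) (by positivity) (B + 2)
  obtain ⟨C₁, hC₁, hNP⟩ := hNPW
  obtain ⟨Cz, hCz, hZc⟩ := hCZP
  obtain ⟨Ct, hCt, hTD⟩ := hTDW
  obtain ⟨x₀, hx₀⟩ := TYN_large η hη (2 * B + 50) x1 (max 256 (216 * 10 ^ 44 * (C₁ * Cz * Ct)))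
  refine ⟨max E0 (2 * B + 50), x₀, ?_⟩
  intro x hx Z lm hZ hlm hSI A hA1 hA β α hβ hα hsupp
  obtain ⟨hxx1, hLΛ, hh0⟩ := hx₀ x hx
  have hL256 : 256 ≤ Real.log x := (le_max_left _ _).trans hLΛ
  have hLC : 216 * 10 ^ 44 * (C₁ * Cz * Ct) ≤ Real.log x := (le_max_right _ _).trans hLΛ
  have hxpos : (0 : ℝ) < x := by
    by_contra h
    have h1 : (x : ℝ) = 0 := le_antisymm (not_lt.1 h) (Nat.cast_nonneg x)
    rw [h1, Real.log_zero] at hL256
    linarith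
  have hxe : Real.exp 256 ≤ x := (Real.le_log_iff_exp_le hxpos).mp hL256
  have hx1' : (1 : ℝ) < x := (Real.one_lt_exp_iff.2 (by norm_num)).trans_le hxe
  have hx1 : 1 ≤ x := by exact_mod_cast hx1'.le
  set L : ℝ := Real.log x with hLdef
  set X : ℝ := (x : ℝ) with hX
  have hL0 : 0 < L := by linarith
  have hL1 : 1 ≤ L := by linarith
  have mono : ∀ a b : ℕ, a ≤ b → L ^ a ≤ L ^ b := fun a b h => pow_le_pow_right₀ hL1 h
  have hZ1 : L ^ E0 ≤ Z := (mono _ _ (le_max_left _ _)).trans hZ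
  have hZ2 : L ^ (2 * B + 50) ≤ Z := (mono _ _ (le_max_right _ _)).trans hZ
  set h : ℝ := X ^ (η / 4) with hh
  have hh1 : 256 ≤ h := by
    have h1 := mono 1 (2 * B + 50) (by omega)
    rw [pow_one] at h1
    linarith
  have hh0' : 0 < h := by linarith
  have hhsq : h ^ 2 = X ^ (η / 2) := by
    rw [hh, sq, ← Real.rpow_add hxpos]
    congr 1
    ring
  have hZN : 1 ≤ Z := by
    have h1 := mono 0 (2 * B + 50) (by omega)
    rw [pow_zero] at h1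
    exact_mod_cast h1.trans hZ2
  have hAX : (A : ℝ) ≤ X := by rw [hX]; exact_mod_cast hA
  have hη3 : η ≤ 1 / 3 := by
    have h1 : X ^ (2 / 3 + η) ≤ X ^ (1 : ℝ) := by
      rw [Real.rpow_one]; exact hA1.trans hAX
    have h2 := (Real.rpow_le_rpow_left_iff hx1').1 h1
    linarith
  have hA1' : (1 : ℝ) ≤ A := (Real.one_le_rpow hx1'.le (by linarith)).trans hA1
  have hAN : 1 ≤ A := by exact_mod_cast hA1'
  have hA2 : X ^ (4 / 3 + 2 * η) ≤ (A : ℝ) ^ 2 := by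
    have h1 : X ^ (4 / 3 + 2 * η) = X ^ (2 / 3 + η) * X ^ (2 / 3 + η) := by
      rw [← Real.rpow_add hxpos]; congr 1; ring
    rw [h1, sq]
    exact mul_le_mul hA1 hA1 (by positivity) (by positivity)
  have hhA : h ^ 2 ≤ A := by
    rw [hhsq]
    exact (Real.rpow_le_rpow_of_exponent_le hx1'.le (by linarith)).trans hA1
  have hSI' : ∀ K : ℕ, 1 ≤ K → (K : ℝ) ≤ X ^ (2 / 3 - η / 2) → SIh x K (L ^ E0) (X ^ 2 / (K * L ^ E0)) lm := by
    intro K hK1 hK q k hq hqQ hk hkx ψ hψ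
    refine (hSI K hK1 hK q k hq (hqQ.trans (mono _ _ (le_max_left _ _))) hk hkx ψ hψ).trans ?_
    have hK0 : (0 : ℝ) < K := by exact_mod_cast hK1
    refine div_le_div_of_nonneg_left (by positivity) (by positivity) ?_
    exact mul_le_mul_of_nonneg_left (mono _ _ (le_max_left _ _)) hK0.le
  -- the number of the blocks
  have hlog2 : 0.6931 < Real.log 2 := by have := Real.log_two_gt_d9; linarith
  have hlog2' : Real.log 2 < 0.6932 := by have := Real.log_two_lt_d9; linarith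
  have hlog32 : Real.log (32 * X ^ 2) = 5 * Real.log 2 + 2 * L := by
    rw [Real.log_mul (by norm_num) (by positivity), Real.log_pow, show (32 : ℝ) = 2 ^ 5 by norm_num, Real.log_pow]
    push_cast
    ring
  have hT5 : Real.log (32 * X ^ 2) ≤ (5 * L - 1) * Real.log 2 := by
    rw [hlog32]; nlinarith
  set J := Nat.log 2 (32 * x ^ 2) + 1 with hJ
  have hJlt : 32 * x ^ 2 < 2 ^ J := Nat.lt_pow_succ_log_self (by norm_num) _
  have hJle : (J : ℝ) ≤ 5 * L := by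
    have h1 : 2 ^ Nat.log 2 (32 * x ^ 2) ≤ 32 * x ^ 2 := Nat.pow_log_le_self 2 (by positivity)
    have h2 : (2 : ℝ) ^ Nat.log 2 (32 * x ^ 2) ≤ 32 * X ^ 2 := by rw [hX]; exact_mod_cast h1
    have h3 : (Nat.log 2 (32 * x ^ 2) : ℝ) * Real.log 2 ≤ Real.log (32 * X ^ 2) := by
      rw [← Real.log_pow]
      exact Real.log_le_log (by positivity) h2
    have h4 := le_of_mul_le_mul_right (h3.trans hT5) (Real.log_pos (by norm_num))
    rw [hJ]
    push_cast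
    linarith
  -- one block
  have blk : ∀ j ∈ range J, |∑ ζ ∈ PZ x A, lm ζ.2 * ∑ m ∈ (nn ζ).divisors with 2 ^ j < m ∧ m ≤ 2 * 2 ^ j,
      β m * α (nn ζ / m)| ≤ 2 * ((A : ℝ) * X / L ^ (B + 2)) := by
    intro j _
    have hN1 : 1 ≤ 2 ^ j := Nat.one_le_two_pow
    generalize 2 ^ j = N at hN1 ⊢
    have hNr : (1 : ℝ) ≤ N := by exact_mod_cast hN1
    by_cases hc : ∃ m k : ℕ, N < m ∧ m ≤ 2 * N ∧ m * k ≤ 32 * x ^ 2 ∧ β m * α k ≠ 0
    · obtain ⟨m, k, hm1, hm2, hmk, hne⟩ := hc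
      obtain ⟨s1, s2⟩ := hsupp m k hmk hne
      have hm1' : (N : ℝ) ≤ m := by exact_mod_cast hm1.le
      have hm2' : (m : ℝ) ≤ 2 * N := by exact_mod_cast hm2
      have hNlow : X ^ (2 / 3 - η) ≤ 2 * N := s1.trans hm2'
      have hNup : (N : ℝ) ≤ X ^ (4 / 3 + 5 * η / 4) := hm1'.trans s2
      -- the two conditions
      have cond1 : X ^ 2 * X ^ (η / 2) ≤ (A : ℝ) ^ 2 * N := by
        have e1 : X ^ (4 / 3 + 2 * η) * X ^ (2 / 3 - η) = X ^ 2 * X ^ (η / 2) * h ^ 2 := by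
          rw [hhsq, ← Real.rpow_natCast X 2, ← Real.rpow_add hxpos, ← Real.rpow_add hxpos, ← Real.rpow_add hxpos]
          congr 1
          push_cast
          ring
        have e2 : X ^ (4 / 3 + 2 * η) * X ^ (2 / 3 - η) ≤ (A : ℝ) ^ 2 * (2 * N) :=
          mul_le_mul hA2 hNlow (by positivity) (by positivity)
        rw [e1] at e2
        have e3 : 0 ≤ X ^ 2 * X ^ (η / 2) := by positivity
        have e4 : 2 ≤ h ^ 2 := by nlinarith
        nlinarith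
      have cond2 : (N : ℝ) * X ^ (η / 2) ≤ (A : ℝ) ^ 2 := by
        refine le_trans ?_ hA2
        calc (N : ℝ) * X ^ (η / 2) ≤ X ^ (4 / 3 + 5 * η / 4) * X ^ (η / 2) :=
              mul_le_mul_of_nonneg_right hNup (by positivity)
          _ = X ^ (4 / 3 + 5 * η / 4 + η / 2) := (Real.rpow_add hxpos _ _).symm
          _ ≤ X ^ (4 / 3 + 2 * η) := Real.rpow_le_rpow_of_exponent_le hx1'.le (by linarith)
      have hh2 : 2 ≤ h ^ 2 := by nlinarith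
      have c1 : √(N : ℝ) * h ≤ A := by
        apply le_of_sq_le_sq _ (by positivity)
        rw [mul_pow, Real.sq_sqrt (by positivity), hhsq]
        exact cond2
      have hh2N : h ^ 2 ≤ N := by
        rw [← hhsq] at cond1
        have e1 : (A : ℝ) ^ 2 * N ≤ X ^ 2 * N := by
          refine mul_le_mul_of_nonneg_right ?_ (by positivity)
          exact pow_le_pow_left₀ (by positivity) hAX 2
        exact le_of_mul_le_mul_left (cond1.trans e1) (by positivity)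
      have c2 : h ≤ √(N : ℝ) := Real.le_sqrt_of_sq_le hh2N
      have h2N : 2 * N ≤ x ^ 2 := by
        have e1 : (2 * N : ℝ) ≤ X ^ 2 := by
          rw [← hhsq] at cond2
          have e2 : (A : ℝ) ^ 2 ≤ X ^ 2 := pow_le_pow_left₀ (by positivity) hAX 2
          nlinarith
        rw [hX] at e1
        exact_mod_cast e1
      set R := Nat.sqrt (2000 * x ^ 2 / N) with hR
      have hR1 : R ^ 2 * N ≤ 2000 * x ^ 2 :=
        (Nat.mul_le_mul_right N (Nat.sqrt_le' _)).trans (Nat.div_mul_le_self _ _)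
      have hR2 : 2000 * x ^ 2 < (R + 1) ^ 2 * N := by
        have := Nat.lt_succ_sqrt' (2000 * x ^ 2 / N)
        rw [← hR] at this
        exact (Nat.div_lt_iff_lt_mul (by omega)).mp this
      have hR3 : 4 ≤ R := by
        by_contra hcon
        have h5 : R + 1 ≤ 4 := by omega
        have h6 : (R + 1) ^ 2 ≤ 4 ^ 2 := Nat.pow_le_pow_left h5 2
        have h7 : (R + 1) ^ 2 * N ≤ 4 ^ 2 * N := Nat.mul_le_mul_right N h6
        have hx2 : 1 ≤ x ^ 2 := Nat.one_le_pow _ _ hx1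
        omega
      have hR4 : 1156 * x ^ 2 ≤ R ^ 2 * N := by
        have h5 : 16 * (R + 1) ^ 2 ≤ 25 * R ^ 2 := by nlinarith
        have h6 : 16 * (R + 1) ^ 2 * N ≤ 25 * R ^ 2 * N := Nat.mul_le_mul_right N h5
        nlinarith
      have hmain := hT x hxx1 Z lm hZ1 hlm hSI' A N R
        ((Real.rpow_le_rpow_of_exponent_le hx1'.le (by linarith)).trans hA1) hA cond1 cond2 hR4 hR1
        (fun z => β (nn z)) α (fun z => hβ _) hα
      have hb := TYN_block (N := N) (R := R) (Z := Z) hDVE hDVU hSIZ hA hN1 hR4 (by linarith : 0 ≤ 2 * L)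
        (by linarith : 0 ≤ 3 * L) hlm hβ hα
      refine hb.trans ?_
      have hSiz : Siz x N R A := by
        refine ⟨hx1, hN1, by omega, hAN, hA, hR4, by omega, ?_, ?_⟩
        · have e1 : X ^ 2 ≤ (A : ℝ) ^ 2 * N := by
            rw [← hhsq] at cond1
            have e3 : 0 ≤ X ^ 2 := by positivity
            nlinarith
          rw [hX] at e1
          exact_mod_cast e1
        · have e1 : (N : ℝ) ≤ (A : ℝ) ^ 2 := by
            rw [← hhsq] at cond2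
            nlinarith
          exact_mod_cast e1
      set G := ⌈h⌉₊ with hG
      have c3 : h ≤ G := Nat.le_ceil h
      have c4 : (G : ℝ) ≤ 2 * h := by
        have := Nat.ceil_lt_add_one hh0'.le
        rw [← hG] at this
        linarith
      have hG1 : 1 ≤ G := by
        have : (1 : ℝ) ≤ G := by linarith
        exact_mod_cast this
      have hGx : G ≤ x := by
        have : (G : ℝ) ≤ x := by
          have e1 : 2 * h ≤ h ^ 2 := by nlinarith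
          linarith
        exact_mod_cast this
      have hcard : (#(TYN_NP x A Z N R) : ℝ) ≤
          C₁ * (1 + Real.log x) * (A * x / Z + x * √N + A * x / √N + x * G + A * x / G) := by
        refine le_trans ?_ (hNP x N R A Z G hSiz hZN hG1 hGx)
        exact_mod_cast TYN_card x A Z N R
      have hK : ∀ w : ℤ × ℤ, (#{z ∈ ZD N | (x : ℤ) < lc z w ∧ |(ac z w : ℝ) - (0 : ℤ)| ≤ (A : ℝ)} : ℝ)
          ≤ Cz * (√N * (A * √N / x + 1)) := by
        intro w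
        by_cases he : ∃ z₀ ∈ ZD N, (x : ℤ) < lc z₀ w
        · obtain ⟨z₀, hz₀, hlc⟩ := he
          refine le_trans ?_ (hZc N x hN1 hx1 z₀ hz₀ w hlc 0 A (by positivity))
          have hsub : ({z ∈ ZD N | (x : ℤ) < lc z w ∧ |(ac z w : ℝ) - (0 : ℤ)| ≤ (A : ℝ)} : Finset (ℤ × ℤ)) ⊆
              {z ∈ ZD N | |(ac z w : ℝ) - (0 : ℤ)| ≤ (A : ℝ)} := by
            intro z hz
            rw [Finset.mem_filter] at hz ⊢
            exact ⟨hz.1, hz.2.2⟩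
          exact_mod_cast Finset.card_le_card hsub
        · have h0 : ({z ∈ ZD N | (x : ℤ) < lc z w ∧ |(ac z w : ℝ) - (0 : ℤ)| ≤ (A : ℝ)} : Finset (ℤ × ℤ)) = ∅ := by
            rw [Finset.filter_eq_empty_iff]
            intro z hz hzz
            exact he ⟨z, hz, hzz.1⟩
          rw [h0, Finset.card_empty, Nat.cast_zero]
          positivity
      have hp := TYN_part hC₁ hCz hCt hSiz hZN hG1 hLdef hL1 (by linarith : 1 ≤ h) c1 c2 c3 c4 hhA hcard hK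
        (hTD R (by omega))
      set S : ℝ := ∑ p ∈ TYN_NP x A Z N R, (#(nn p.1).divisors : ℝ) with hSdef
      have hS0 : 0 ≤ S := Finset.sum_nonneg fun _ _ => by positivity
      have hsec : 2 * L * (3 * L) * S ≤ (A : ℝ) * X / L ^ (B + 2) := by
        apply le_of_sq_le_sq _ (by positivity)
        have e1 : (1 : ℝ) / Z + 5 / h ≤ 6 / L ^ (2 * B + 50) := by
          have hP : 0 < L ^ (2 * B + 50) := by positivity
          have f1 : (1 : ℝ) / Z ≤ 1 / L ^ (2 * B + 50) := div_le_div_of_nonneg_left (by norm_num) hP hZ2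
          have f2 : (5 : ℝ) / h ≤ 5 / L ^ (2 * B + 50) := div_le_div_of_nonneg_left (by norm_num) hP hh0
          have f3 : (6 : ℝ) / L ^ (2 * B + 50) = 1 / L ^ (2 * B + 50) + 5 / L ^ (2 * B + 50) := by ring
          rw [f3]
          linarith
        calc (2 * L * (3 * L) * S) ^ 2 = 36 * L ^ 4 * S ^ 2 := by ring
          _ ≤ 36 * L ^ 4 * (10 ^ 44 * (C₁ * Cz * Ct) * L ^ 41 * (6 / L ^ (2 * B + 50)) * (A * X) ^ 2) := by
              refine mul_le_mul_of_nonneg_left ?_ (by positivity)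
              refine hp.trans ?_
              refine mul_le_mul_of_nonneg_right ?_ (by positivity)
              exact mul_le_mul_of_nonneg_left e1 (by positivity)
          _ = (216 * 10 ^ 44 * (C₁ * Cz * Ct)) * (L ^ 45 / L ^ (2 * B + 50)) * (A * X) ^ 2 := by ring
          _ ≤ L * (L ^ 45 / L ^ (2 * B + 50)) * (A * X) ^ 2 := by
              refine mul_le_mul_of_nonneg_right ?_ (by positivity)
              exact mul_le_mul_of_nonneg_right hLC (by positivity)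
          _ = ((A : ℝ) * X / L ^ (B + 2)) ^ 2 := by
              have e2 : L ^ (2 * B + 50) = (L ^ (B + 2)) ^ 2 * L ^ 46 := by
                rw [← pow_mul, ← pow_add]
                congr 1
                ring
              rw [e2]
              field_simp
      have hmain' := hmain
      linarith
    · have hz : ∑ ζ ∈ PZ x A, lm ζ.2 * ∑ m ∈ (nn ζ).divisors with N < m ∧ m ≤ 2 * N,
          β m * α (nn ζ / m) = 0 := by
        apply Finset.sum_eq_zero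
        intro ζ hζ
        rw [TYN_PZ, Finset.mem_filter] at hζ
        obtain ⟨_, h5⟩ := TYN_nnQ hA hζ.1
        have h6 : ∑ m ∈ (nn ζ).divisors with N < m ∧ m ≤ 2 * N, β m * α (nn ζ / m) = 0 := by
          apply Finset.sum_eq_zero
          intro m hm
          rw [Finset.mem_filter] at hm
          by_contra hne
          refine hc ⟨m, nn ζ / m, hm.2.1, hm.2.2, ?_, hne⟩
          rw [Nat.mul_div_cancel' (Nat.dvd_of_mem_divisors hm.1)]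
          exact h5
        rw [h6, mul_zero]
      rw [hz, abs_zero]
      positivity
  -- all blocks
  have htot : ∑ ζ ∈ PZ x A, lm ζ.2 * ∑ m ∈ (nn ζ).divisors, β m * α (nn ζ / m)
      = ∑ j ∈ range J, ∑ ζ ∈ PZ x A, lm ζ.2 * ∑ m ∈ (nn ζ).divisors with 2 ^ j < m ∧ m ≤ 2 * 2 ^ j,
          β m * α (nn ζ / m) := by
    rw [Finset.sum_comm]
    apply Finset.sum_congr rfl
    intro ζ hζ
    rw [TYN_PZ, Finset.mem_filter] at hζ
    obtain ⟨h5', h5⟩ := TYN_nnQ hA hζ.1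
    rw [← Finset.mul_sum, ← TYN_dyad]
    apply congrArg
    rw [Finset.sum_filter]
    apply Finset.sum_congr rfl
    intro m hm
    have hmle : m ≤ nn ζ := Nat.divisor_le hm
    have hmpos : 0 < m := Nat.pos_of_mem_divisors hm
    by_cases hm1 : 1 < m
    · rw [if_pos ⟨hm1, by omega⟩]
    · have hm1' : m = 1 := by omega
      subst hm1'
      rw [if_neg (by omega)]
      by_contra hne
      have h6 := (hsupp 1 (nn ζ / 1) (by rw [one_mul, Nat.div_one]; exact h5) hne).1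
      have h7 : 1 < X ^ (2 / 3 - η) := Real.one_lt_rpow hx1' (by linarith)
      rw [Nat.cast_one] at h6
      linarith
  rw [htot]
  refine (Finset.abs_sum_le_sum_abs _ _).trans ((Finset.sum_le_sum blk).trans ?_)
  rw [Finset.sum_const, Finset.card_range, nsmul_eq_mul]
  have h5 : (J : ℝ) * (2 * ((A : ℝ) * X / L ^ (B + 2))) ≤ (5 * L) * (2 * ((A : ℝ) * X / L ^ (B + 2))) :=
    mul_le_mul_of_nonneg_right hJle (by positivity)
  refine h5.trans ?_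
  have h6 : (5 * L) * (2 * ((A : ℝ) * X / L ^ (B + 2))) = (10 / L) * ((A : ℝ) * X / L ^ B) := by
    rw [pow_add]
    field_simp
    ring
  rw [h6]
  have h7 : 10 / L ≤ 1 := by rw [div_le_one hL0]; linarith
  have h8 : 0 ≤ (A : ℝ) * X / L ^ B := by positivity
  nlinarith

end Pool.Agent.FJ
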